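import Pool.Agent.V1146.McKay.Main

/-!
# Q1: the McKay-type Bessel densities are never hyperbolically completely monotone

For `φ(x) = c x^(ν-1) e^(-bx) I_μ(ax)` with `μ > -1`, `μ + ν > 0`, `b > a > 0`, and for
`ξ(x) = c x^(2μ) e^(-bx) I_μ(ax)^2` with `μ > -1/4`, `b > 2a > 0` (`c > 0` the normalising
constant, arbitrary here), no parameter value gives a hyperbolically completely monotone density.

Proof. For fixed `u`, the product `I_μ(auv) I_μ(au/v)` is an entire function of `w = v + 1/v`. An
entire function that is completely monotone on `(2,∞)` has, by its Taylor series at `3`, a value at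
`0` which is at least its value at `3`, hence is positive at `0`. But at `w = 0`, i.e. `v = i`, the
value is a positive multiple of (a power of) `J_μ(au)^2`, and `J_μ` has a positive zero: otherwise
`s ↦ ∫_0^∞ H(x) x^μ e^(-sx) dx = s^(-μ-1) e^(-1/s)` would be nonincreasing on `(0,∞)`, where
`H(x) = ∑ (-x)^m / (m! Γ(m+μ+1))`.
-/

namespace Pool.Agent.Results.MP_ede858_pr.NeverHCM

open Pool.Agent.V1146.McKay

/-- **Q1.** None of the densities `φ_{μ,ν,a,b}` and none of the densities `ξ_{μ,a,b}` is
hyperbolically completely monotone. -/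
theorem result :
    (∀ μ ν a b c : ℝ, -1 < μ → 0 < μ + ν → 0 < a → a < b → 0 < c →
      ¬ HCM (fun x => c * (x ^ (ν - 1) * Real.exp (-b * x) * besselI μ (a * x)))) ∧
    (∀ μ a b c : ℝ, -1 / 4 < μ → 0 < a → 2 * a < b → 0 < c →
      ¬ HCM (fun x => c * (x ^ (2 * μ) * Real.exp (-b * x) * besselI μ (a * x) ^ 2))) := by
  refine ⟨fun μ ν a b c hμ _ ha _ hc => ?_, fun μ a b c hμ ha _ hc => ?_⟩
  · have := not_hcm (α := ν - 1) (b := b) (k := 1) hμ ha hc one_ne_zero
    simpa only [pow_one] using this
  · exact not_hcm (α := 2 * μ) (b := b) (k := 2) (by linarith) ha hc two_ne_zero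

end Pool.Agent.Results.MP_ede858_pr.NeverHCM
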